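import Mathlib

/-!
# Project PG: the number `K₂` of `not_poly`
-/

set_option autoImplicit false

namespace Pool.Agent.Helper8.PG

open Filter

/-- a power of `K` times `L` is at most `ε x` if `L` is at least `2 ^ K` and `L ^ 2 ≤ C x` -/
theorem exists_K2 (C : ℕ) (hC : 0 < C) {ε : ℝ} (hε : 0 < ε) :
    ∃ K₂ : ℕ, ∀ (K : ℕ) (L x : ℝ), K₂ ≤ K → 2 ^ K ≤ L → L ^ 2 ≤ C * x →
      0 < x ∧ (K : ℝ) ^ C * L ≤ ε * x := by
  have hC' : (0 : ℝ) < C := by exact_mod_cast hC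
  have h := tendsto_pow_const_div_const_pow_of_one_lt C (one_lt_two : (1 : ℝ) < 2)
  have h2 := h.eventually (gt_mem_nhds (div_pos hε hC'))
  obtain ⟨K₂, hK⟩ := eventually_atTop.1 h2
  refine ⟨K₂, fun K L x hKK hL hx => ?_⟩
  have h3 := hK K hKK
  have hp : (0 : ℝ) < 2 ^ K := by positivity
  have hL0 : 0 < L := hp.trans_le hL
  have hL2 : 0 < L ^ 2 := by positivity
  have hx0 : 0 < x := by
    by_contra hn
    have : (C : ℝ) * x ≤ 0 := mul_nonpos_of_nonneg_of_nonpos hC'.le (not_lt.1 hn)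
    linarith
  refine ⟨hx0, ?_⟩
  rw [div_lt_div_iff₀ hp hC'] at h3
  have h4 : (K : ℝ) ^ C * C ≤ ε * L := h3.le.trans (mul_le_mul_of_nonneg_left hL hε.le)
  have h5 : ((K : ℝ) ^ C * L) * C ≤ (ε * x) * C := by
    calc ((K : ℝ) ^ C * L) * C = ((K : ℝ) ^ C * C) * L := by ring
      _ ≤ (ε * L) * L := mul_le_mul_of_nonneg_right h4 hL0.le
      _ = ε * L ^ 2 := by ring
      _ ≤ ε * (C * x) := mul_le_mul_of_nonneg_left hx hε.le
      _ = (ε * x) * C := by ring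
  exact le_of_mul_le_mul_right h5 hC'

end Pool.Agent.Helper8.PG
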